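import Pool.Agent.Y317.VS.Prof

/-!
A smooth periodic even potential with two wells whose widths alternate with the scale.
-/

set_option autoImplicit false

open Set Filter Topology
open scoped ContDiff

namespace Pool.Agent.Y317.VS

/-- the potential -/
noncomputable def VV (b : Bool) (x : ℝ) : ℝ :=
  F b (Real.sin (Real.pi * x) ^ 2) * F (!b) (Real.cos (Real.pi * x) ^ 2)

theorem VV_contDiff (b : Bool) : ContDiff ℝ ∞ (VV b) := by
  unfold VV
  have h1 : ContDiff ℝ ∞ fun x : ℝ => Real.sin (Real.pi * x) ^ 2 :=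
    (Real.contDiff_sin.comp (contDiff_const.mul contDiff_id)).pow 2
  have h2 : ContDiff ℝ ∞ fun x : ℝ => Real.cos (Real.pi * x) ^ 2 :=
    (Real.contDiff_cos.comp (contDiff_const.mul contDiff_id)).pow 2
  exact ((F_contDiff b).comp h1).mul ((F_contDiff (!b)).comp h2)

theorem VV_nonneg (b : Bool) (x : ℝ) : 0 ≤ VV b x := mul_nonneg (F_nonneg _ _) (F_nonneg _ _)

theorem VV_even (b : Bool) (x : ℝ) : VV b (-x) = VV b x := by
  unfold VV
  rw [mul_neg, Real.sin_neg, Real.cos_neg, neg_sq]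

theorem VV_per (b : Bool) (x : ℝ) : VV b (x + 1) = VV b x := by
  unfold VV
  rw [mul_add, mul_one, Real.sin_add_pi, Real.cos_add_pi, neg_sq, neg_sq]

theorem VV_reflect (b : Bool) (x : ℝ) : VV b (1 / 2 - x) = VV (!b) x := by
  unfold VV
  have h1 : Real.pi * (1 / 2 - x) = Real.pi / 2 - Real.pi * x := by ring
  rw [h1, Real.sin_pi_div_two_sub, Real.cos_pi_div_two_sub, Bool.not_not, mul_comm]

theorem VV_le (b : Bool) (x : ℝ) : VV b x ≤ 1 :=
  mul_le_one₀ (F_le_one _ _) (F_nonneg _ _) (F_le_one _ _)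

theorem sin_ge {x : ℝ} (h0 : 0 ≤ x) (h1 : x ≤ 1 / 2) : 2 * x ≤ Real.sin (Real.pi * x) := by
  have hπ := Real.pi_pos
  have h2 := Real.mul_le_sin (x := Real.pi * x) (by positivity) (by nlinarith)
  have h3 : 2 / Real.pi * (Real.pi * x) = 2 * x := by field_simp
  linarith

theorem VV_mid (b : Bool) {x : ℝ} (hx : x ∈ Icc (1 / 8 : ℝ) (3 / 8)) :
    c 1 * c 1 ≤ VV b x := by
  have h1 := sin_ge (x := x) (by linarith [hx.1]) (by linarith [hx.2])
  have h2 := sin_ge (x := 1 / 2 - x) (by linarith [hx.2]) (by linarith [hx.1])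
  have h3 : Real.pi * (1 / 2 - x) = Real.pi / 2 - Real.pi * x := by ring
  rw [h3, Real.sin_pi_div_two_sub] at h2
  have h4 : 1 / 16 ≤ Real.sin (Real.pi * x) ^ 2 := by nlinarith [hx.1]
  have h5 : 1 / 16 ≤ Real.cos (Real.pi * x) ^ 2 := by nlinarith [hx.2]
  exact mul_le_mul (F_mid b h4) (F_mid (!b) h5) (c_pos 1).le (F_nonneg _ _)

theorem sin_dbl (x : ℝ) : Real.sin (2 * x) ^ 2 ≤ 4 * Real.sin x ^ 2 := by
  rw [Real.sin_two_mul]
  have := Real.cos_sq_le_one x
  nlinarith [sq_nonneg (Real.sin x), mul_le_mul_of_nonneg_left this (sq_nonneg (Real.sin x))]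

/-- a scale at which the well at `0` is wide and the well at `1/2` is narrow -/
theorem scale (b : Bool) {ρ : ℝ} (hρ : 0 < ρ) :
    ∃ r η : ℝ, 0 < r ∧ r ≤ 1 / 4 ∧ 0 < η ∧ η < ρ ∧ (∀ t ∈ Icc 0 r, VV b t ≤ η) ∧
      ∀ t ∈ Icc (1 / 4) (1 / 2 - r / 8), 20 * η ≤ VV b t := by
  obtain ⟨q, hq⟩ := (summable_c.tendsto_atTop_zero.eventually
    (gt_mem_nhds (by positivity : 0 < ρ / 2))).exists_forall_of_atTop
  set j : ℕ := 2 * q + b.toNat with hj
  set a : ℝ := s j with haj
  have ha : 0 < a := s_pos j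
  have ha4 : a ≤ 1 / 4 := s_le j
  have hπ := Real.pi_pos
  have hsa : 0 < √a := Real.sqrt_pos.2 ha
  have hsa2 : √a ≤ 1 / 2 := by
    rw [Real.sqrt_le_left (by norm_num)]
    norm_num
    linarith
  set r : ℝ := Real.arcsin (√a) / Real.pi with hr
  have hpr : Real.pi * r = Real.arcsin (√a) := by rw [hr]; field_simp
  have hsin : Real.sin (Real.pi * r) = √a := by
    rw [hpr, Real.sin_arcsin (by linarith) (by linarith)]
  have hsin2 : Real.sin (Real.pi * r) ^ 2 = a := by rw [hsin, Real.sq_sqrt ha.le]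
  have hr0 : 0 < r := div_pos (Real.arcsin_pos.2 hsa) hπ
  have hr2 : r ≤ 1 / 2 := by
    rw [hr, div_le_iff₀ hπ]
    have := Real.arcsin_le_pi_div_two (√a)
    linarith
  have hr4 : r ≤ 1 / 4 := by
    have := sin_ge hr0.le hr2
    rw [hsin] at this
    linarith
  refine ⟨r, 2 * c (j + 2), hr0, hr4, by have := c_pos (j + 2); positivity, ?_, ?_, ?_⟩
  · have := hq (j + 2) (by omega)
    linarith
  · intro t ht
    have h1 : Real.sin (Real.pi * t) ^ 2 ≤ a := by
      rw [← hsin2]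
      have h2 : 0 ≤ Real.sin (Real.pi * t) :=
        Real.sin_nonneg_of_nonneg_of_le_pi (mul_nonneg hπ.le ht.1) (by nlinarith [ht.2])
      refine pow_le_pow_left₀ h2 (Real.sin_le_sin_of_le_of_le_pi_div_two ?_ ?_ ?_) 2
      · nlinarith [ht.1]
      · nlinarith
      · exact mul_le_mul_of_nonneg_left ht.2 hπ.le
    calc VV b t ≤ F b a * 1 := mul_le_mul (F_mono b h1) (F_le_one _ _) (F_nonneg _ _)
          (F_nonneg _ _)
      _ = F b a := mul_one _
      _ ≤ 2 * c (j + 2) := F_small b q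
  · intro t ht
    have hs1 : 1 / 2 ≤ Real.sin (Real.pi * t) ^ 2 := by
      have h2 : Real.sin (Real.pi / 4) ≤ Real.sin (Real.pi * t) := by
        refine Real.sin_le_sin_of_le_of_le_pi_div_two ?_ ?_ ?_
        · linarith
        · nlinarith [ht.2]
        · nlinarith [ht.1]
      rw [Real.sin_pi_div_four] at h2
      have h3 : (√2 / 2) ^ 2 = 1 / 2 := by
        rw [div_pow, Real.sq_sqrt (by norm_num)]
        norm_num
      rw [← h3]
      exact pow_le_pow_left₀ (by positivity) h2 2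
    have hc1 : a / 64 ≤ Real.cos (Real.pi * t) ^ 2 := by
      have h2 : Real.sin (Real.pi * (r / 8)) ≤ Real.cos (Real.pi * t) := by
        rw [← Real.sin_pi_div_two_sub]
        refine Real.sin_le_sin_of_le_of_le_pi_div_two ?_ ?_ ?_
        · nlinarith
        · nlinarith [ht.1]
        · nlinarith [ht.2]
      have h3 : 0 ≤ Real.sin (Real.pi * (r / 8)) :=
        Real.sin_nonneg_of_nonneg_of_le_pi (by positivity) (by nlinarith)
      have h4 := pow_le_pow_left₀ h3 h2 2
      have h5 := sin_dbl (Real.pi * (r / 8))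
      have h6 := sin_dbl (2 * (Real.pi * (r / 8)))
      have h7 := sin_dbl (2 * (2 * (Real.pi * (r / 8))))
      have h8 : 2 * (2 * (2 * (Real.pi * (r / 8)))) = Real.pi * r := by ring
      rw [h8, hsin2] at h7
      linarith
    have h9 : c 1 ≤ F b (Real.sin (Real.pi * t) ^ 2) := F_mid b (by linarith)
    have h10 : c (j + 1) ≤ F (!b) (Real.cos (Real.pi * t) ^ 2) :=
      (F_large b q).trans (F_mono _ hc1)
    exact (c_ratio j).trans (mul_le_mul h9 h10 (c_pos _).le (F_nonneg _ _))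

end Pool.Agent.Y317.VS
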