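import Pool.Agent.Y317.VM.Key
import Pool.Agent.Y317.VS.Pot

/-!
One-dimensional solutions of the viscous cell problem for the potential `VV true`, and their
oscillation as `ε → 0`.
-/

set_option autoImplicit false

open Set Filter Topology

namespace Pool.Agent.Y317.VS

open Pool.Agent.Y317.VM

/-- the bound of the slopes -/
def MM : ℝ := 1 + 2

/-- the lower bound of the potential in the middle -/
noncomputable def mm : ℝ := c 1 * c 1

theorem MM_pos : 0 < MM := by unfold MM; norm_num

theorem mm_pos : 0 < mm := mul_pos (c_pos 1) (c_pos 1)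

/-- the size of the oscillation -/
noncomputable def κ : ℝ := mm / (8 * MM)

theorem κ_pos : 0 < κ := div_pos mm_pos (by have := MM_pos; positivity)

/-- `v` is a solution for the potential `V` with the slope `w` and the constant `E` -/
structure Sol (V : ℝ → ℝ) (ε E : ℝ) (w v : ℝ → ℝ) : Prop where
  w0 : w 0 = 0
  w1 : w (1 / 2) = 0
  bd : ∀ t, |w t| ≤ MM
  ode : ∀ t, HasDerivAt w ((w t ^ 2 - V t + E) / ε) t
  prim : ∀ t, HasDerivAt v (w t) t

theorem low (b : Bool) {δ : ℝ} (hδ : 0 < δ) :
    ∃ ε ∈ Ioo 0 δ, ∀ (E : ℝ) (w v : ℝ → ℝ), Sol (VV b) ε E w v →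
      κ ≤ v (3 / 8) - v (1 / 8) := by
  have hM := MM_pos
  have hm := mm_pos
  set τ : ℝ := min (δ / 2) (mm / (32 * MM)) with hτ
  have hτ0 : 0 < τ := lt_min (by positivity) (by positivity)
  have hρ0 : 0 < min (τ ^ 2) (mm / 20) := lt_min (by positivity) (by positivity)
  obtain ⟨r, η, hr0, hr4, hη0, hη1, h1, h2⟩ := scale b hρ0
  have hητ : η < τ ^ 2 := lt_of_lt_of_le hη1 (min_le_left _ _)
  have hηm : η < mm / 20 := lt_of_lt_of_le hη1 (min_le_right _ _)
  have hsη : √η < τ := by
    rw [Real.sqrt_lt' hτ0]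
    exact hητ
  have hsη0 : 0 < √η := Real.sqrt_pos.2 hη0
  have hε0 : 0 < r * √η := mul_pos hr0 hsη0
  have hετ : r * √η < τ := by nlinarith
  refine ⟨r * √η, ⟨hε0, ?_⟩, ?_⟩
  · have := min_le_left (δ / 2) (mm / (32 * MM))
    rw [← hτ] at this
    linarith
  · intro E w v hs
    have h3 := growth (m := mm) hr0 hr4 hη0 hε0 (by rw [mul_pow, Real.sq_sqrt hη0.le])
      hs.ode hs.w0 hs.w1 hs.bd (VV_nonneg b) h1 h2 (fun t ht => VV_mid b ht) (by linarith)
      hs.prim
    have h4 : 2 * MM * (r * √η) ≤ mm / 16 := by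
      have h5 : r * √η ≤ mm / (32 * MM) := hετ.le.trans (min_le_right _ _)
      calc 2 * MM * (r * √η) ≤ 2 * MM * (mm / (32 * MM)) :=
            mul_le_mul_of_nonneg_left h5 (by positivity)
        _ = mm / 16 := by field_simp; norm_num
    unfold κ
    rw [div_le_iff₀ (by positivity)]
    nlinarith

theorem high {δ : ℝ} (hδ : 0 < δ) :
    ∃ ε ∈ Ioo 0 δ, ∀ (E : ℝ) (w v : ℝ → ℝ), Sol (VV true) ε E w v →
      v (3 / 8) - v (1 / 8) ≤ -κ := by
  obtain ⟨ε, hε, h⟩ := low false hδ
  refine ⟨ε, hε, fun E w v hs => ?_⟩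
  have h1 := h E (fun t => -(w (1 / 2 - t))) (fun t => v (1 / 2 - t))
    { w0 := by
        change -(w (1 / 2 - 0)) = 0
        rw [sub_zero, hs.w1, neg_zero]
      w1 := by
        change -(w (1 / 2 - 1 / 2)) = 0
        rw [sub_self, hs.w0, neg_zero]
      bd := fun t => by
        change |-(w (1 / 2 - t))| ≤ MM
        rw [abs_neg]
        exact hs.bd _
      ode := fun t => by
        have h2 := ((hs.ode (1 / 2 - t)).comp_const_sub (1 / 2) t).fun_neg
        refine h2.congr_deriv ?_
        rw [VV_reflect, Bool.not_true]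
        ring
      prim := fun t => (hs.prim (1 / 2 - t)).comp_const_sub (1 / 2) t }
  have e1 : (1 / 2 - 3 / 8 : ℝ) = 1 / 8 := by norm_num
  have e2 : (1 / 2 - 1 / 8 : ℝ) = 3 / 8 := by norm_num
  simp only [e1, e2] at h1
  linarith

/-- existence of a one-dimensional solution -/
theorem exists_Sol {ε : ℝ} (hε : 0 < ε) : ∃ (E : ℝ) (w v : ℝ → ℝ), Sol (VV true) ε E w v ∧
    v 0 = 0 ∧ Function.Periodic v 1 ∧ ContDiff ℝ 2 v := by
  obtain ⟨E, w, w0, w1, hodd, hper, hbd, hode⟩ := exists_riccati hε (VV_contDiff true).continuous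
    (VV_nonneg true) (VV_le true) (VV_even true) (VV_per true)
  have hwc : Continuous w := continuous_iff_continuousAt.2 fun t => (hode t).continuousAt
  set v : ℝ → ℝ := fun x => ∫ t in (0:ℝ)..x, w t with hv
  have hprim : ∀ t, HasDerivAt v (w t) t := fun t =>
    intervalIntegral.integral_hasDerivAt_right (hwc.intervalIntegrable _ _)
      (hwc.stronglyMeasurableAtFilter _ _) hwc.continuousAt
  have hv0 : v 0 = 0 := by simp [hv]
  have heven : ∀ x, v (-x) = v x := by
    have h1 : ∀ x, HasDerivAt (fun x => v (-x) - v x) 0 x := by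
      intro x
      have h2 : HasDerivAt (fun t => v (-t)) (w (-x) * -1) x :=
        (hprim (-x)).comp x (hasDerivAt_neg x)
      refine (h2.fun_sub (hprim x)).congr_deriv ?_
      rw [hodd]
      ring
    intro x
    have h3 := is_const_of_deriv_eq_zero (fun x => (h1 x).differentiableAt)
      (fun x => (h1 x).deriv) x 0
    simp only [neg_zero, sub_self] at h3
    linarith
  have hperv : Function.Periodic v 1 := by
    have h1 : ∀ x, HasDerivAt (fun x => v (x + 1) - v x) 0 x := by
      intro x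
      refine (((hprim (x + 1)).comp_add_const x 1).fun_sub (hprim x)).congr_deriv ?_
      rw [hper]
      ring
    intro x
    have h3 := is_const_of_deriv_eq_zero (fun x => (h1 x).differentiableAt)
      (fun x => (h1 x).deriv) x (-(1 / 2))
    have e1 : (-(1 / 2) + 1 : ℝ) = 1 / 2 := by norm_num
    simp only [e1, heven (1 / 2), sub_self] at h3
    linarith
  refine ⟨E, w, v, ⟨w0, w1, hbd, hode, hprim⟩, hv0, hperv, ?_⟩
  have hd1 : deriv v = w := funext fun t => (hprim t).deriv
  have hd2 : deriv w = fun t => (w t ^ 2 - VV true t + E) / ε := funext fun t => (hode t).deriv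
  have e : (2 : WithTop ℕ∞) = 1 + 1 := by norm_num
  rw [e, contDiff_succ_iff_deriv]
  refine ⟨fun t => (hprim t).differentiableAt, fun h => by simp at h, ?_⟩
  rw [hd1, contDiff_one_iff_deriv]
  refine ⟨fun t => (hode t).differentiableAt, ?_⟩
  rw [hd2]
  exact (((hwc.pow 2).sub (VV_contDiff true).continuous).add continuous_const).div_const _

end Pool.Agent.Y317.VS
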