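import Pool.Agent.H342R3.Visc6
import Pool.Agent.Y317.VS.Osc

/-!
The mechanical Hamiltonian `|p|² - V(x)` on the torus for the potential `VV true` of one coordinate.
-/

set_option autoImplicit false

open Set Filter Topology
open scoped ContDiff

namespace Pool.Agent.Y317.VS

open Pool.Agent.H342R3.CellDefs Pool.Agent.H342R3

variable {n : ℕ}

/-- the potential, a function of one coordinate -/
noncomputable def Pt (j : Fin n) (x : E n) : ℝ := VV true (x j)

theorem Pt_contDiff (j : Fin n) : ContDiff ℝ ∞ (Pt j) :=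
  (VV_contDiff true).comp (EuclideanSpace.proj j : E n →L[ℝ] ℝ).contDiff

theorem VV_contDiff2 : ContDiff ℝ 2 (VV true) := by
  exact_mod_cast contDiff_infty.1 (VV_contDiff true) 2

theorem Pt_contDiff2 (j : Fin n) : ContDiff ℝ 2 (Pt j) := by
  exact_mod_cast contDiff_infty.1 (Pt_contDiff j) 2

theorem Pt_periodic (j : Fin n) : IsPeriodic (Pt j) := by
  intro x k
  have h1 : (x + WithLp.toLp 2 fun i => (k i : ℝ)) j = x j + (k j : ℝ) * 1 := by simp
  have h2 : Function.Periodic (VV true) 1 := VV_per true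
  unfold Pt
  rw [h1, (h2.int_mul (k j)) (x j)]

/-- the Hamiltonian -/
noncomputable def Hm (j : Fin n) (x p : E n) : ℝ := ‖p‖ ^ 2 - Pt j x

theorem Hm_hamiltonian (j : Fin n) : IsHamiltonian (Hm j) where
  smooth := by
    unfold Hm
    exact (contDiff_snd.norm_sq ℝ).sub ((Pt_contDiff2 j).comp contDiff_fst)
  periodic := by
    intro p x k
    unfold Hm
    simp only
    rw [Pt_periodic j x k]

theorem Hm_strong (j : Fin n) (x : E n) : StrongConvexOn univ 2 (Hm j x) := by
  rw [strongConvexOn_iff_convex]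
  have : (fun p : E n => Hm j x p - 2 / (2 : ℝ) * ‖p‖ ^ 2) = fun _ => -(Pt j x) := by
    funext p
    unfold Hm
    ring
  rw [this]
  exact convexOn_const _ convex_univ

theorem Hm_A1 (j : Fin n) : A1 (Hm j) := by
  have hVd : ContDiff ℝ 1 (deriv (VV true)) := by
    have e : (2 : WithTop ℕ∞) = 1 + 1 := by norm_num
    have := VV_contDiff2
    rw [e, contDiff_succ_iff_deriv] at this
    exact this.2.2
  have hper : Function.Periodic (VV true) 1 := VV_per true
  obtain ⟨K2, hK2⟩ := Cell.exists_bound hper VV_contDiff2.continuous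
  obtain ⟨K4, hK4⟩ := Cell.exists_bound (Cell.deriv_periodic hper) hVd.continuous
  have hK2n : 0 ≤ K2 := (abs_nonneg _).trans (hK2 0)
  have hK4n : 0 ≤ K4 := (abs_nonneg _).trans (hK4 0)
  intro M
  refine ⟨max (1 + 2 * K2) (8 * (K4 + |M|) + 1), fun p hp x => ?_⟩
  set s : ℝ := ‖p‖ with hs
  have hs1 : 1 + 2 * K2 ≤ s := (le_max_left _ _).trans hp
  have hs2 : 8 * (K4 + |M|) + 1 ≤ s := (le_max_right _ _).trans hp
  have hMn : 0 ≤ |M| := abs_nonneg M
  have hs0 : 1 ≤ s := by linarith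
  have hpj : |p j| ≤ s := by
    have := PiLp.norm_apply_le p j
    simpa using this
  have hVD : HasDerivAt (VV true) (deriv (VV true) (x j)) (x j) :=
    ((VV_contDiff2.differentiable (by norm_num)) (x j)).hasDerivAt
  have hg : grad (fun y => Hm j y p) x =
      (-deriv (VV true) (x j)) • EuclideanSpace.single j (1:ℝ) :=
    Cell.coord_grad j x (hVD.const_sub (‖p‖ ^ 2))
  have hin : inner ℝ (grad (fun y => Hm j y p) x) p = (-deriv (VV true) (x j)) * p j := by
    rw [hg, inner_smul_left, EuclideanSpace.inner_single_left]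
    simp
  rw [hin]
  have b4 : |(-deriv (VV true) (x j)) * p j| ≤ K4 * s := by
    rw [abs_mul, abs_neg]
    exact mul_le_mul (hK4 _) hpj (abs_nonneg _) hK4n
  have hH : s ^ 2 / 2 ≤ Hm j x p := by
    unfold Hm Pt
    have h2 := (abs_le.1 (hK2 (x j))).2
    rw [← hs]
    nlinarith
  have hH3 : (s ^ 2 / 2) ^ 2 ≤ Hm j x p ^ 2 := pow_le_pow_left₀ (by positivity) hH 2
  have h6 := (abs_le.1 b4).1
  have h7 : (s ^ 2 / 2) ^ 2 = s ^ 3 * s / 4 := by ring
  have h8 : s ≤ s ^ 3 := by
    have : s ^ 3 = s ^ 2 * s := by ring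
    rw [this]
    exact le_mul_of_one_le_left (by linarith) (one_le_pow₀ hs0)
  have h9 : 8 * (K4 + |M|) ≤ s ^ 3 := by linarith
  have h10 : 8 * (K4 + |M|) * s ≤ s ^ 3 * s := mul_le_mul_of_nonneg_right h9 (by linarith)
  have h11 : |M| ≤ |M| * s := le_mul_of_one_le_right hMn hs0
  have h12 := le_abs_self M
  rw [h7] at hH3
  nlinarith

theorem Hm_sol (j : Fin n) {ε c : ℝ} (hε : 0 < ε) {w v : ℝ → ℝ} (hs : Sol (VV true) ε c w v)
    (hper : Function.Periodic v 1) (hcd : ContDiff ℝ 2 v) :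
    IsViscousSolution (Hm (n := n) j) ε (-c) (fun x => v (x j)) := by
  refine ⟨hcd.comp (EuclideanSpace.proj j : E n →L[ℝ] ℝ).contDiff, ?_, ?_⟩
  · intro x k
    have h1 : (x + WithLp.toLp 2 fun i => (k i : ℝ)) j = x j + (k j : ℝ) * 1 := by simp
    simp only
    rw [h1, (hper.int_mul (k j)) (x j)]
  · intro x
    rw [Cell.coord_grad j x (hs.prim (x j)), Cell.coord_lap j x hs.prim (hs.ode (x j))]
    unfold Hm Pt
    have h1 : ‖w (x j) • (EuclideanSpace.single j (1:ℝ) : E n)‖ ^ 2 = w (x j) ^ 2 := by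
      rw [norm_smul]; simp
    rw [h1]
    field_simp
    ring

end Pool.Agent.Y317.VS
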