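import Mathlib

/-!
Two smooth monotone profiles which are flat at `0` and dominate each other alternately.
-/

set_option autoImplicit false

open Set Filter Topology
open scoped ContDiff

namespace Pool.Agent.Y317.VS

/-- bounds for the derivatives of the smooth transition -/
theorem st_bound (m : ℕ) : ∃ C : ℝ, 0 ≤ C ∧ ∀ x, |iteratedDeriv m Real.smoothTransition x| ≤ C := by
  have hcd : ContDiff ℝ (m : ℕ∞) Real.smoothTransition := Real.smoothTransition.contDiff
  have hc : Continuous (iteratedDeriv m Real.smoothTransition) :=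
    hcd.continuous_iteratedDeriv m (by norm_cast)
  obtain ⟨C, hC⟩ := (isCompact_Icc (a := (-1:ℝ)) (b := 2)).exists_bound_of_continuousOn
    hc.continuousOn
  refine ⟨max C 1, by positivity, fun x => ?_⟩
  by_cases hx : x ∈ Icc (-1:ℝ) 2
  · exact (hC x hx).trans (le_max_left _ _)
  · rw [mem_Icc, not_and_or, not_le, not_le] at hx
    refine le_trans ?_ (le_max_right _ _)
    rcases hx with h | h
    · have h1 : Real.smoothTransition =ᶠ[𝓝 x] fun _ => (0:ℝ) := by
        filter_upwards [Iio_mem_nhds (h.trans (by norm_num : (-1:ℝ) < 0))] with z hz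
        exact Real.smoothTransition.zero_of_nonpos (le_of_lt hz)
      rw [h1.iteratedDeriv_eq m, iteratedDeriv_const]
      split_ifs <;> norm_num
    · have h1 : Real.smoothTransition =ᶠ[𝓝 x] fun _ => (1:ℝ) := by
        filter_upwards [Ioi_mem_nhds ((by norm_num : (1:ℝ) < 2).trans h)] with z hz
        exact Real.smoothTransition.one_of_one_le (le_of_lt hz)
      rw [h1.iteratedDeriv_eq m, iteratedDeriv_const]
      split_ifs <;> norm_num

/-- the heights of the steps -/
noncomputable def c (j : ℕ) : ℝ := ((128:ℝ) ^ ((j + 1) ^ 2))⁻¹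

theorem c_pos (j : ℕ) : 0 < c j := by unfold c; positivity

/-- a step -/
noncomputable def g (j : ℕ) (u : ℝ) : ℝ :=
  c j * Real.smoothTransition ((128:ℝ) ^ (j + 1) * u - 1)

theorem g_nonneg (j : ℕ) (u : ℝ) : 0 ≤ g j u :=
  mul_nonneg (c_pos j).le (Real.smoothTransition.nonneg _)

theorem g_le (j : ℕ) (u : ℝ) : g j u ≤ c j :=
  mul_le_of_le_one_right (c_pos j).le (Real.smoothTransition.le_one _)

theorem g_mono (j : ℕ) : Monotone (g j) := fun x y h =>
  mul_le_mul_of_nonneg_left (Real.smoothTransition.monotone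
    (by have := mul_le_mul_of_nonneg_left h (by positivity : (0:ℝ) ≤ 128 ^ (j + 1)); linarith))
    (c_pos j).le

theorem g_contDiff (j : ℕ) (n : ℕ∞) : ContDiff ℝ n (g j) :=
  contDiff_const.mul (Real.smoothTransition.contDiff.comp
    ((contDiff_const.mul contDiff_id).sub contDiff_const))

theorem g_zero {j : ℕ} {u : ℝ} (h : (128:ℝ) ^ (j + 1) * u ≤ 1) : g j u = 0 := by
  unfold g
  rw [Real.smoothTransition.zero_of_nonpos (by linarith), mul_zero]

theorem g_one {j : ℕ} {u : ℝ} (h : 2 ≤ (128:ℝ) ^ (j + 1) * u) : g j u = c j := by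
  unfold g
  rw [Real.smoothTransition.one_of_one_le (by linarith), mul_one]

theorem g_deriv (m j : ℕ) (u : ℝ) : iteratedDeriv m (g j) u =
    c j * (((128:ℝ) ^ (j + 1)) ^ m *
      iteratedDeriv m Real.smoothTransition ((128:ℝ) ^ (j + 1) * u - 1)) := by
  have h1 : g j = fun x => c j * (fun y => (fun z => Real.smoothTransition (z - 1))
    ((128:ℝ) ^ (j + 1) * y)) x := rfl
  rw [h1, iteratedDeriv_const_mul_field]
  have hcd : ContDiff ℝ (m : ℕ∞) fun z => Real.smoothTransition (z - 1) :=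
    Real.smoothTransition.contDiff.comp (contDiff_id.sub contDiff_const)
  have h2 := congrFun (iteratedDeriv_comp_const_mul (n := m)
    (f := fun z => Real.smoothTransition (z - 1)) (by exact_mod_cast hcd)
    ((128:ℝ) ^ (j + 1))) u
  have h3 := congrFun (iteratedDeriv_comp_sub_const m Real.smoothTransition (1:ℝ))
    ((128:ℝ) ^ (j + 1) * u)
  refine congrArg (c j * ·) (h2.trans ?_)
  exact congrArg (((128:ℝ) ^ (j + 1)) ^ m * ·) h3

theorem c_bound (m j : ℕ) :
    c j * ((128:ℝ) ^ (j + 1)) ^ m ≤ (128:ℝ) ^ ((m + 1) ^ 2) * (1 / 128) ^ (j + 1) := by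
  unfold c
  rw [← pow_mul, one_div, inv_pow, inv_mul_le_iff₀ (by positivity), ← mul_assoc, ← pow_add,
    le_mul_inv_iff₀ (by positivity), ← pow_add]
  exact pow_le_pow_right₀ (by norm_num) (by nlinarith [sq_nonneg ((j:ℤ) - m)])

/-- the profile -/
noncomputable def F (b : Bool) (u : ℝ) : ℝ := ∑' i : ℕ, g (2 * i + b.toNat) u

theorem inj (b : Bool) : Function.Injective fun i : ℕ => 2 * i + b.toNat := fun i j h => by
  simp only at h
  omega

theorem summable_c : Summable c := by
  have h1 : Summable fun j : ℕ => (128:ℝ) ^ ((0 + 1) ^ 2) * (1 / 128) ^ (j + 1) :=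
    ((summable_geometric_of_lt_one (by norm_num) (by norm_num)).comp_injective
      (add_left_injective 1)).mul_left _
  refine Summable.of_nonneg_of_le (fun j => (c_pos j).le) (fun j => ?_) h1
  have := c_bound 0 j
  simpa using this

theorem summable_g (b : Bool) (u : ℝ) : Summable fun i : ℕ => g (2 * i + b.toNat) u :=
  Summable.of_nonneg_of_le (fun i => g_nonneg _ _) (fun i => g_le _ _)
    (summable_c.comp_injective (inj b))

theorem F_contDiff (b : Bool) : ContDiff ℝ ∞ (F b) := by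
  choose C hC0 hC using st_bound
  refine contDiff_tsum (v := fun k i => C k * ((128:ℝ) ^ ((k + 1) ^ 2) *
    (1 / 128) ^ (2 * i + b.toNat + 1))) (fun i => g_contDiff _ _) (fun k _ => ?_) ?_
  · refine Summable.mul_left _ (Summable.mul_left _ ?_)
    exact (summable_geometric_of_lt_one (by norm_num) (by norm_num)).comp_injective
      ((add_left_injective 1).comp (inj b))
  · intro k i x _
    rw [norm_iteratedFDeriv_eq_norm_iteratedDeriv, g_deriv, Real.norm_eq_abs, ← mul_assoc, abs_mul,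
      mul_comm]
    refine mul_le_mul (hC k _) ?_ (abs_nonneg _) (hC0 k)
    rw [abs_of_pos (mul_pos (c_pos _) (by positivity))]
    exact c_bound k _

theorem F_mono (b : Bool) : Monotone (F b) := fun x y h =>
  (summable_g b x).tsum_le_tsum (fun i => g_mono _ h) (summable_g b y)

theorem F_nonneg (b : Bool) (u : ℝ) : 0 ≤ F b u := tsum_nonneg fun i => g_nonneg _ _

theorem le_F (b : Bool) (u : ℝ) (i : ℕ) : g (2 * i + b.toNat) u ≤ F b u :=
  (summable_g b u).le_tsum i fun j _ => g_nonneg _ _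

theorem c_geom (j k : ℕ) : c (j + k) ≤ c j * (1 / 2) ^ k := by
  unfold c
  rw [one_div, inv_pow, ← mul_inv]
  apply inv_anti₀ (by positivity)
  calc (128:ℝ) ^ (j + 1) ^ 2 * 2 ^ k ≤ 128 ^ (j + 1) ^ 2 * 128 ^ k := by
        refine mul_le_mul_of_nonneg_left (pow_le_pow_left₀ (by norm_num) (by norm_num) k)
          (by positivity)
    _ = 128 ^ ((j + 1) ^ 2 + k) := (pow_add _ _ _).symm
    _ ≤ 128 ^ (j + k + 1) ^ 2 := pow_le_pow_right₀ (by norm_num) (by
        have : (j + k + 1) ^ 2 = (j + 1) ^ 2 + k + (k ^ 2 + 2 * j * k + k) := by ring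
        omega)

theorem F_le_one (b : Bool) (u : ℝ) : F b u ≤ 1 := by
  have h1 : ∀ i : ℕ, g (2 * i + b.toNat) u ≤ c 0 * (1 / 2) ^ i := by
    intro i
    refine (g_le _ _).trans ?_
    have h2 := c_geom 0 (2 * i + b.toNat)
    rw [zero_add] at h2
    refine h2.trans (mul_le_mul_of_nonneg_left ?_ (c_pos 0).le)
    exact pow_le_pow_of_le_one (by norm_num) (by norm_num) (by omega)
  have h2 : Summable fun i : ℕ => c 0 * (1 / 2 : ℝ) ^ i := summable_geometric_two.mul_left _
  calc F b u ≤ ∑' i : ℕ, c 0 * (1 / 2) ^ i := (summable_g b u).tsum_le_tsum h1 h2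
    _ = c 0 * 2 := by rw [tsum_mul_left, tsum_geometric_two]
    _ ≤ 1 := by unfold c; norm_num

/-- the place of the step number `j` -/
noncomputable def s (j : ℕ) : ℝ := ((128:ℝ) ^ (j + 1))⁻¹

theorem s_pos (j : ℕ) : 0 < s j := by unfold s; positivity

theorem s_le (j : ℕ) : s j ≤ 1 / 4 := by
  unfold s
  rw [one_div]
  apply inv_anti₀ (by norm_num)
  calc (4:ℝ) ≤ 128 ^ 1 := by norm_num
    _ ≤ 128 ^ (j + 1) := pow_le_pow_right₀ (by norm_num) (by omega)

/-- upper bound at the steps of the same profile -/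
theorem F_small (b : Bool) (q : ℕ) :
    F b (s (2 * q + b.toNat)) ≤ 2 * c (2 * q + b.toNat + 2) := by
  unfold F
  rw [← (summable_g b (s (2 * q + b.toNat))).sum_add_tsum_nat_add (q + 1)]
  have h1 : ∑ i ∈ Finset.range (q + 1), g (2 * i + b.toNat) (s (2 * q + b.toNat)) = 0 := by
    refine Finset.sum_eq_zero fun i hi => ?_
    have hi' := Finset.mem_range.1 hi
    apply g_zero
    unfold s
    rw [mul_inv_le_iff₀ (by positivity), one_mul]
    exact pow_le_pow_right₀ (by norm_num) (by omega)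
  rw [h1, zero_add]
  have h2 : ∀ i : ℕ, g (2 * (i + (q + 1)) + b.toNat) (s (2 * q + b.toNat)) ≤
      c (2 * q + b.toNat + 2) * (1 / 2) ^ i := by
    intro i
    refine (g_le _ _).trans ?_
    have e : 2 * (i + (q + 1)) + b.toNat = (2 * q + b.toNat + 2) + 2 * i := by ring
    rw [e]
    refine (c_geom _ _).trans (mul_le_mul_of_nonneg_left ?_ (c_pos _).le)
    exact pow_le_pow_of_le_one (by norm_num) (by norm_num) (by omega)
  have h3 : Summable fun i : ℕ => c (2 * q + b.toNat + 2) * (1 / 2 : ℝ) ^ i :=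
    summable_geometric_two.mul_left _
  have h4 : Summable fun i : ℕ => g (2 * (i + (q + 1)) + b.toNat) (s (2 * q + b.toNat)) :=
    (summable_nat_add_iff (f := fun i => g (2 * i + b.toNat) (s (2 * q + b.toNat))) (q + 1)).2
      (summable_g b _)
  refine (h4.tsum_le_tsum h2 h3).trans ?_
  rw [tsum_mul_left, tsum_geometric_two]
  linarith

/-- lower bound for the other profile -/
theorem F_large (b : Bool) (q : ℕ) :
    c (2 * q + b.toNat + 1) ≤ F (!b) (s (2 * q + b.toNat) / 64) := by
  have key : ∀ i : ℕ, 2 * i + (!b).toNat = 2 * q + b.toNat + 1 →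
      c (2 * q + b.toNat + 1) ≤ F (!b) (s (2 * q + b.toNat) / 64) := by
    intro i hi
    have h1 := le_F (!b) (s (2 * q + b.toNat) / 64) i
    rw [hi] at h1
    have h2 : (128:ℝ) ^ (2 * q + b.toNat + 1 + 1) * (s (2 * q + b.toNat) / 64) = 2 := by
      unfold s
      rw [pow_succ]
      field_simp
      norm_num
    rwa [g_one h2.ge] at h1
  cases b
  · exact key q rfl
  · exact key (q + 1) (by simp; ring)

theorem F_mid (b : Bool) {u : ℝ} (hu : 1 / 16 ≤ u) : c 1 ≤ F b u := by
  have h1 := le_F b u 0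
  have h2 : c 1 ≤ c (2 * 0 + b.toNat) := by
    cases b
    · have := c_geom 0 1
      simp only [zero_add, pow_one] at this
      have h3 := c_pos 0
      simp only [mul_zero, Bool.toNat_false, add_zero]
      linarith
    · simp
  refine h2.trans (le_of_eq_of_le ?_ h1)
  rw [g_one]
  have h3 : (128:ℝ) ^ 1 ≤ 128 ^ (2 * 0 + b.toNat + 1) :=
    pow_le_pow_right₀ (by norm_num) (by omega)
  nlinarith

theorem c_ratio (j : ℕ) : 20 * (2 * c (j + 2)) ≤ c 1 * c (j + 1) := by
  unfold c
  rw [← mul_inv, ← mul_assoc, ← div_eq_mul_inv, div_le_iff₀ (by positivity), inv_mul_eq_div,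
    le_div_iff₀ (by positivity)]
  have h1 : (20 * 2 : ℝ) ≤ 128 ^ 1 := by norm_num
  calc 20 * 2 * ((128:ℝ) ^ (1 + 1) ^ 2 * 128 ^ (j + 1 + 1) ^ 2)
      ≤ 128 ^ 1 * ((128:ℝ) ^ (1 + 1) ^ 2 * 128 ^ (j + 1 + 1) ^ 2) :=
        mul_le_mul_of_nonneg_right h1 (by positivity)
    _ = 128 ^ (1 + ((1 + 1) ^ 2 + (j + 1 + 1) ^ 2)) := by rw [pow_add, pow_add]
    _ ≤ 128 ^ (j + 2 + 1) ^ 2 := pow_le_pow_right₀ (by norm_num) (by
        have : (j + 2 + 1) ^ 2 = (1 + ((1 + 1) ^ 2 + (j + 1 + 1) ^ 2)) + 2 * j := by ring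
        omega)

end Pool.Agent.Y317.VS
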